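import Mathlib

/-!
# MP_b29aa3_nt: heights of quaternary cyclotomic polynomials

Disproof of Q1: the primes `11 < 13 < 571 < 163307` satisfy all three congruence conditions
(`13 ≢ -1 mod 11`, `571 ≡ -1 mod 143`, `163307 ≡ 1 mod 81653`), but the coefficient of
`x ^ 4105048112` in the cyclotomic polynomial of index `11 * 13 * 571 * 163307` is `5`, so its
height is at least `5`, not `2`.
-/

namespace Pool.Agent.Results.MP_b29aa3_nt.HeightFive
open Polynomial

/-- the coefficients of `Φ_143`, via two bit masks -/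
def Pf (l : ℕ) : ℤ :=
  if Nat.testBit 1330039708322533223563998032010684417 l then 1
  else if Nat.testBit 665019854161266611772984116006375426 l then -1 else 0

/-- the coefficients of `1 / Φ_143` -/
def Cf (k : ℕ) : ℤ :=
  if k % 143 < 11 then 1 else if k % 143 < 13 then 0 else if k % 143 < 24 then -1 else 0

def natSum (f : ℕ → ℤ) : ℕ → ℤ
  | 0 => 0
  | n + 1 => natSum f n + f n

theorem natSum_eq (f : ℕ → ℤ) (n : ℕ) : natSum f n = ∑ i ∈ Finset.range n, f i := by
  induction n with
  | zero => rfl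
  | succ n ih => rw [natSum, ih, Finset.sum_range_succ]

def treeSum (f : ℕ → ℤ) : ℕ → ℕ → ℤ
  | 0, a => f a
  | k + 1, a => treeSum f k a + treeSum f k (a + 2 ^ k)

theorem treeSum_eq (f : ℕ → ℤ) (k a : ℕ) :
    treeSum f k a = ∑ i ∈ Finset.range (2 ^ k), f (a + i) := by
  induction k generalizing a with
  | zero => simp [treeSum]
  | succ k ih =>
    rw [treeSum, ih, ih, pow_succ, mul_two, Finset.sum_range_add]
    congr 1
    refine Finset.sum_congr rfl fun i _ => ?_
    rw [add_assoc]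

/-- the coefficient of `Φ_81653` in degree `w` -/
def Fc (w : ℕ) : ℤ := natSum (fun i => Pf i * Cf (w - i * 571)) (w / 571 + 1)

def term (w : ℕ) : ℤ :=
  if 25137 < w then 0 else
  if Pf ((4105048112 - w * 163307) % 571) = 0 then 0 else
  if Cf ((4105048112 - w * 163307) / 571) = 0 then 0 else
    Fc w * (Cf ((4105048112 - w * 163307) / 571) * Pf ((4105048112 - w * 163307) % 571))

theorem eval : treeSum term 15 0 = 5 := by decide +kernel

theorem Pf_big (l : ℕ) (h : 121 ≤ l) : Pf l = 0 := by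
  have h1 : Nat.testBit 1330039708322533223563998032010684417 l = false := by
    apply Nat.testBit_lt_two_pow
    calc 1330039708322533223563998032010684417 < 2 ^ 121 := by norm_num
      _ ≤ 2 ^ l := Nat.pow_le_pow_right (by norm_num) h
  have h2 : Nat.testBit 665019854161266611772984116006375426 l = false := by
    apply Nat.testBit_lt_two_pow
    calc 665019854161266611772984116006375426 < 2 ^ 121 := by norm_num
      _ ≤ 2 ^ l := Nat.pow_le_pow_right (by norm_num) h
  simp [Pf, h1, h2]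

noncomputable def Pp : PowerSeries ℤ := PowerSeries.mk Pf
noncomputable def Cp : PowerSeries ℤ := PowerSeries.mk Cf

open PowerSeries in
theorem Pp_mul : Pp * (∑ i ∈ Finset.range 11, (PowerSeries.X : PowerSeries ℤ) ^ i)
    = ∑ i ∈ Finset.range 11, (PowerSeries.X : PowerSeries ℤ) ^ (13 * i) := by
  ext k
  rw [Finset.mul_sum, map_sum, map_sum]
  simp only [PowerSeries.coeff_mul_X_pow', PowerSeries.coeff_X_pow, Pp, PowerSeries.coeff_mk]
  by_cases hk : k < 131
  · have : ∀ k < 131, (∑ i ∈ Finset.range 11, if i ≤ k then Pf (k - i) else 0)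
      = ∑ i ∈ Finset.range 11, if k = 13 * i then (1 : ℤ) else 0 := by decide +kernel
    exact this k hk
  · rw [Finset.sum_eq_zero, Finset.sum_eq_zero]
    · intro i hi
      rw [Finset.mem_range] at hi
      rw [if_neg (by omega)]
    · intro i hi
      rw [Finset.mem_range] at hi
      rw [if_pos (by omega), Pf_big _ (by omega)]

theorem Cp_mul : Cp * (1 - (PowerSeries.X : PowerSeries ℤ) ^ 143)
    = (∑ i ∈ Finset.range 11, (PowerSeries.X : PowerSeries ℤ) ^ i) * (1 - PowerSeries.X ^ 13) := by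
  ext k
  rw [mul_sub, mul_sub, mul_one, mul_one, map_sub, map_sub, PowerSeries.coeff_mul_X_pow',
    PowerSeries.coeff_mul_X_pow']
  have hs : ∀ k, PowerSeries.coeff k (∑ i ∈ Finset.range 11, (PowerSeries.X : PowerSeries ℤ) ^ i)
      = if k < 11 then 1 else 0 := by
    intro k
    rw [map_sum]
    simp only [PowerSeries.coeff_X_pow]
    rw [Finset.sum_ite_eq]
    simp
  rw [hs, hs]
  simp only [Cp, PowerSeries.coeff_mk, Cf]
  split_ifs <;> omega

/-- the cyclotomic polynomial `Φ_143` as a power series -/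
theorem coe_P : ((cyclotomic 143 ℤ : ℤ[X]) : PowerSeries ℤ) = Pp := by
  have h11 : Fact (Nat.Prime 11) := ⟨by norm_num⟩
  have h := cyclotomic_expand_eq_cyclotomic_mul (p := 13) (n := 11) (by norm_num) (by norm_num) ℤ
  rw [cyclotomic_prime, map_sum] at h
  have h2 := congrArg (fun f : ℤ[X] => (f : PowerSeries ℤ)) h
  have e1 : ((∑ i ∈ Finset.range 11, (expand ℤ 13) ((X : ℤ[X]) ^ i) : ℤ[X]) : PowerSeries ℤ)
      = ∑ i ∈ Finset.range 11, (PowerSeries.X : PowerSeries ℤ) ^ (13 * i) := by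
    rw [← Polynomial.coeToPowerSeries.ringHom_apply, map_sum]
    refine Finset.sum_congr rfl fun i _ => ?_
    rw [map_pow, expand_X, Polynomial.coeToPowerSeries.ringHom_apply, Polynomial.coe_pow,
      Polynomial.coe_pow, Polynomial.coe_X, pow_mul]
  have e2 : ((∑ i ∈ Finset.range 11, (X : ℤ[X]) ^ i : ℤ[X]) : PowerSeries ℤ)
      = ∑ i ∈ Finset.range 11, (PowerSeries.X : PowerSeries ℤ) ^ i := by
    rw [← Polynomial.coeToPowerSeries.ringHom_apply, map_sum]
    refine Finset.sum_congr rfl fun i _ => ?_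
    rw [Polynomial.coeToPowerSeries.ringHom_apply, Polynomial.coe_pow, Polynomial.coe_X]
  simp only [Polynomial.coe_mul] at h2
  rw [e1, e2, ← Pp_mul] at h2
  have hne : (∑ i ∈ Finset.range 11, (PowerSeries.X : PowerSeries ℤ) ^ i) ≠ 0 := by
    intro h0
    have := congrArg (PowerSeries.coeff 0) h0
    rw [map_sum] at this
    simp [PowerSeries.coeff_X_pow] at this
  have := mul_right_cancel₀ hne h2
  rw [this]

theorem PC : Pp * Cp = 1 := by
  have hne : (1 - (PowerSeries.X : PowerSeries ℤ) ^ 143) ≠ 0 := by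
    intro h0
    have := congrArg (PowerSeries.coeff 0) h0
    simp at this
  apply mul_right_cancel₀ hne
  rw [mul_assoc, Cp_mul, ← mul_assoc, Pp_mul, one_mul]
  have : (∑ i ∈ Finset.range 11, (PowerSeries.X : PowerSeries ℤ) ^ (13 * i))
      = ∑ i ∈ Finset.range 11, ((PowerSeries.X : PowerSeries ℤ) ^ 13) ^ i :=
    Finset.sum_congr rfl fun i _ => by rw [pow_mul]
  rw [this]
  have h := geom_sum_mul_neg ((PowerSeries.X : PowerSeries ℤ) ^ 13) 11
  rw [h, ← pow_mul]

theorem coe_expand (r : ℕ) (hr : r ≠ 0) (f : ℤ[X]) :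
    ((expand ℤ r f : ℤ[X]) : PowerSeries ℤ) = PowerSeries.expand r hr (f : PowerSeries ℤ) := by
  ext k
  rw [Polynomial.coeff_coe, Polynomial.coeff_expand (Nat.pos_of_ne_zero hr),
    PowerSeries.coeff_expand]
  simp only [Polynomial.coeff_coe]

theorem coeff_expand_mul (s : ℕ) (hs : s ≠ 0) (f g : PowerSeries ℤ) (m : ℕ) :
    PowerSeries.coeff m (PowerSeries.expand s hs f * g)
      = ∑ w ∈ Finset.range (m / s + 1),
          PowerSeries.coeff w f * PowerSeries.coeff (m - w * s) g := by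
  have hs' : 0 < s := Nat.pos_of_ne_zero hs
  rw [PowerSeries.coeff_mul, Finset.Nat.sum_antidiagonal_eq_sum_range_succ_mk]
  simp only [PowerSeries.coeff_expand, ite_mul, zero_mul]
  rw [← Finset.sum_filter]
  symm
  refine Finset.sum_nbij' (fun w => w * s) (fun a => a / s) ?_ ?_ ?_ ?_ ?_
  · intro w hw
    rw [Finset.mem_range] at hw
    rw [Finset.mem_filter, Finset.mem_range]
    refine ⟨?_, Dvd.intro_left w rfl⟩
    have : w ≤ m / s := by omega
    have := (Nat.le_div_iff_mul_le hs').1 this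
    omega
  · intro a ha
    rw [Finset.mem_filter, Finset.mem_range] at ha
    rw [Finset.mem_range]
    have := Nat.div_le_div_right (c := s) (show a ≤ m by omega)
    omega
  · intro w _
    exact Nat.mul_div_cancel _ hs'
  · intro a ha
    rw [Finset.mem_filter] at ha
    exact Nat.div_mul_cancel ha.2
  · intro w _
    rw [Nat.mul_div_cancel _ hs']

/-- `1 / Φ_81653` -/
noncomputable def G : PowerSeries ℤ := PowerSeries.expand 571 (by norm_num) Cp * Pp

theorem coeff_G (k : ℕ) : PowerSeries.coeff k G = Cf (k / 571) * Pf (k % 571) := by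
  rw [G, coeff_expand_mul]
  simp only [Cp, Pp, PowerSeries.coeff_mk]
  rw [Finset.sum_eq_single (k / 571)]
  · congr 2
    omega
  · intro w hw hne
    rw [Finset.mem_range] at hw
    rw [Pf_big (k - w * 571) (by omega), mul_zero]
  · intro h
    exact absurd (Finset.mem_range.2 (by omega)) h

noncomputable def F : PowerSeries ℤ := PowerSeries.expand 571 (by norm_num) Pp * Cp

theorem coeff_F (w : ℕ) : PowerSeries.coeff w F = Fc w := by
  rw [F, coeff_expand_mul, Fc, natSum_eq]
  simp only [Cp, Pp, PowerSeries.coeff_mk]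

theorem FG : F * G = 1 := by
  have : F * G = PowerSeries.expand 571 (by norm_num) (Pp * Cp) * (Pp * Cp) := by
    rw [F, G, map_mul]; ring
  rw [this, PC, map_one, one_mul]

theorem coe_F : ((cyclotomic (143 * 571) ℤ : ℤ[X]) : PowerSeries ℤ) = F := by
  have h := cyclotomic_expand_eq_cyclotomic_mul (p := 571) (n := 143) (by norm_num)
    (by norm_num) ℤ
  have h2 := congrArg (fun f : ℤ[X] => (f : PowerSeries ℤ)) h
  simp only [Polynomial.coe_mul] at h2
  rw [coe_expand 571 (by norm_num), coe_P] at h2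
  rw [F, h2, mul_assoc, PC, mul_one]

theorem coe_H : ((cyclotomic (143 * 571 * 163307) ℤ : ℤ[X]) : PowerSeries ℤ)
    = PowerSeries.expand 163307 (by norm_num) F * G := by
  have h := cyclotomic_expand_eq_cyclotomic_mul (p := 163307) (n := 143 * 571) (by norm_num)
    (by norm_num) ℤ
  have h2 := congrArg (fun f : ℤ[X] => (f : PowerSeries ℤ)) h
  simp only [Polynomial.coe_mul] at h2
  rw [coe_expand 163307 (by norm_num), coe_F] at h2
  rw [h2, mul_assoc _ F G, FG, mul_one]

theorem coeff_H : (cyclotomic (143 * 571 * 163307) ℤ).coeff 4105048112 = 5 := by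
  rw [← Polynomial.coeff_coe, coe_H, coeff_expand_mul]
  rw [show 4105048112 / 163307 + 1 = 25138 by norm_num]
  simp only [coeff_F, coeff_G]
  rw [← eval, treeSum_eq]
  rw [show (2 : ℕ) ^ 15 = 25138 + 7630 by norm_num, Finset.sum_range_add]
  rw [Finset.sum_eq_zero (s := Finset.range 7630), add_zero]
  · refine Finset.sum_congr rfl fun w hw => ?_
    rw [Finset.mem_range] at hw
    rw [zero_add, term, if_neg (by omega)]
    split_ifs with h1 h2
    · rw [h1, mul_zero, mul_zero]
    · rw [h2, zero_mul, mul_zero]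
    · rfl
  · intro w hw
    rw [term, if_pos (by omega)]

/-- The height of the `n`-th cyclotomic polynomial: the largest absolute value of a
coefficient (the supremum over the finite support). -/
noncomputable def height (n : ℕ) : ℕ :=
  (cyclotomic n ℤ).support.sup fun k => ((cyclotomic n ℤ).coeff k).natAbs

theorem five_le_height : 5 ≤ height (11 * 13 * 571 * 163307) := by
  have h := coeff_H
  rw [show 143 * 571 * 163307 = 11 * 13 * 571 * 163307 by norm_num] at h
  have hm : 4105048112 ∈ (cyclotomic (11 * 13 * 571 * 163307) ℤ).support := by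
    rw [Polynomial.mem_support_iff, h]
    norm_num
  have := Finset.le_sup (f := fun k => ((cyclotomic (11 * 13 * 571 * 163307) ℤ).coeff k).natAbs) hm
  simp only [h] at this
  exact this

/-- Q1 is false: the primes `11 < 13 < 571 < 163307` satisfy the congruence conditions and the
height of the cyclotomic polynomial of their product is at least `5`. -/
theorem result :
    (∃ p q r s : ℕ, p.Prime ∧ q.Prime ∧ r.Prime ∧ s.Prime ∧ p < q ∧ q < r ∧ r < s ∧
      ((s : ℤ) ≡ 1 [ZMOD (p * q * r)] ∨ (s : ℤ) ≡ -1 [ZMOD (p * q * r)]) ∧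
      ((r : ℤ) ≡ 1 [ZMOD (p * q)] ∨ (r : ℤ) ≡ -1 [ZMOD (p * q)]) ∧
      ¬ (q : ℤ) ≡ -1 [ZMOD p] ∧ 5 ≤ height (p * q * r * s)) ∧
    ¬ ∀ p q r s : ℕ, p.Prime → q.Prime → r.Prime → s.Prime → p < q → q < r → r < s →
      ((s : ℤ) ≡ 1 [ZMOD (p * q * r)] ∨ (s : ℤ) ≡ -1 [ZMOD (p * q * r)]) →
      ((r : ℤ) ≡ 1 [ZMOD (p * q)] ∨ (r : ℤ) ≡ -1 [ZMOD (p * q)]) →
      ¬ (q : ℤ) ≡ -1 [ZMOD p] → height (p * q * r * s) = 2 := by
  have h : (Nat.Prime 11 ∧ Nat.Prime 13 ∧ Nat.Prime 571 ∧ Nat.Prime 163307) ∧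
      (((163307 : ℕ) : ℤ) ≡ 1 [ZMOD (((11 : ℕ) : ℤ) * ((13 : ℕ) : ℤ) * ((571 : ℕ) : ℤ))]) ∧
      (((571 : ℕ) : ℤ) ≡ -1 [ZMOD (((11 : ℕ) : ℤ) * ((13 : ℕ) : ℤ))]) ∧
      ¬ ((13 : ℕ) : ℤ) ≡ -1 [ZMOD ((11 : ℕ) : ℤ)] := by
    refine ⟨⟨by norm_num, by norm_num, by norm_num, by norm_num⟩, ?_, ?_, ?_⟩ <;>
      simp [Int.ModEq]
  obtain ⟨⟨h1, h2, h3, h4⟩, h5, h6, h7⟩ := h
  refine ⟨⟨11, 13, 571, 163307, h1, h2, h3, h4, by norm_num, by norm_num, by norm_num,
    Or.inl h5, Or.inr h6, h7, five_le_height⟩, fun hall => ?_⟩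
  have := hall 11 13 571 163307 h1 h2 h3 h4 (by norm_num) (by norm_num) (by norm_num)
    (Or.inl h5) (Or.inr h6) h7
  have h8 := five_le_height
  omega

end Pool.Agent.Results.MP_b29aa3_nt.HeightFive
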